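import Pool.Agent.FS.RajCrit.Main

set_option autoImplicit false

namespace Pool.Agent.Results.MP_c7f57c_an.RajchmanCriterion

open MeasureTheory Filter Topology
open Pool.Agent.Lib.MP_c7f57c_an Pool.Agent.FS.RajCrit

/-- A Moran set carries a Rajchman probability measure if and only if its digit sets carry
probability weights whose nontrivial discrete Fourier coefficients tend to zero uniformly. -/
theorem result (M : ℕ → ℕ) (D : ℕ → Finset ℕ) (hM : ∀ n, 2 ≤ M n)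
    (hD : ∀ n, (D n).Nonempty ∧ D n ⊆ Finset.range (M n)) :
    (∃ μ : Measure ℝ, IsProbabilityMeasure μ ∧
      μ {x : ℝ | ∃ d : ℕ → ℕ, (∀ n, d n ∈ D n) ∧
        x = ∑' n, (d n : ℝ) / ∏ k ∈ Finset.range (n + 1), (M k : ℝ)}ᶜ = 0 ∧
      Tendsto (fun ξ : ℝ => ∫ x, Complex.exp (-(2 * Real.pi * Complex.I * (ξ * x))) ∂μ)
        (cocompact ℝ) (𝓝 0)) ↔
    ∀ ε : ℝ, 0 < ε → ∀ᶠ n in atTop, ∃ w : ℕ → ℝ, (∀ d, 0 ≤ w d) ∧ ∑ d ∈ D n, w d = 1 ∧
      ∀ j : ℕ, 0 < j → j < M n →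
        ‖∑ d ∈ D n, (w d : ℂ) * Complex.exp (2 * Real.pi * Complex.I * (j * d / M n))‖ ≤ ε := by
  have e1 : ∀ n, ∏ k ∈ Finset.range (n + 1), (M k : ℝ) = Gen.P M (n + 1) := fun n => by
    simp only [Gen.P, Nat.cast_prod]
  have e2 : ∀ (μ : Measure ℝ) (ξ : ℝ),
      ‖∫ x, Complex.exp (-(2 * Real.pi * Complex.I * (ξ * x))) ∂μ‖ = ‖∫ x, ch (ξ * x) ∂μ‖ := by
    intro μ ξ
    rw [← norm_int_neg μ (fun x => x) ξ]
    congr 2
    ext x
    unfold ch
    congr 1
    push_cast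
    ring
  have e3 : ∀ j d m : ℕ, Complex.exp (2 * Real.pi * Complex.I * (j * d / m)) = ch (j * d / m) :=
    fun j d m => by
      unfold ch
      congr 1
      push_cast
      ring
  simp only [e1, e3]
  constructor
  · rintro ⟨μ, hμ, hK, hz⟩
    refine flat_of_measure hM (fun n => (hD n).2) μ hK ?_
    rw [tendsto_zero_iff_norm_tendsto_zero] at hz ⊢
    simpa only [e2] using hz
  · intro hF
    obtain ⟨μ, hμ, hK, hz⟩ := measure_of_flat hM (fun n => (hD n).2) (fun n => (hD n).1) hF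
    refine ⟨μ, hμ, hK, ?_⟩
    rw [tendsto_zero_iff_norm_tendsto_zero] at hz ⊢
    simpa only [e2] using hz

end Pool.Agent.Results.MP_c7f57c_an.RajchmanCriterion
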