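import Pool.Agent.Lib.MP_c7f57c_an.Thin
import Pool.Agent.Lib.MP_c7f57c_an.Sparse
import Pool.Agent.Lib.MP_c7f57c_an.Mass

set_option autoImplicit false

namespace Pool.Agent.Results.MP_c7f57c_an.Threshold

open MeasureTheory Filter Topology

/-- `E` is a set of uniqueness: every real trigonometric series whose sums of the first `N` terms
tend to `0` at every point of `[0,1] \ E` has all coefficients zero (`b 0` multiplies the zero
function, so nothing is asked of it). -/
def IsUniquenessSet (E : Set ℝ) : Prop :=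
  ∀ a b : ℕ → ℝ,
    (∀ x ∈ Set.Icc (0 : ℝ) 1 \ E,
      Tendsto (fun N : ℕ => ∑ n ∈ Finset.range N,
        (a n * Real.cos (2 * Real.pi * n * x) + b n * Real.sin (2 * Real.pi * n * x)))
        atTop (𝓝 0)) →
    (∀ n, a n = 0) ∧ (∀ n, 1 ≤ n → b n = 0)

/-- The Moran set with bases `M 0, M 1, ...` and digit sets `D 0, D 1, ...`. -/
def moranSet (M : ℕ → ℕ) (D : ℕ → Finset ℕ) : Set ℝ :=
  {x | ∃ d : ℕ → ℕ, (∀ n, d n ∈ D n) ∧
    x = ∑' n, (d n : ℝ) / ∏ k ∈ Finset.range (n + 1), (M k : ℝ)}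

open Pool.Agent.Lib.MP_c7f57c_an

lemma moranSet_eq (M : ℕ → ℕ) (D : ℕ → Finset ℕ) : moranSet M D =
    {x : ℝ | ∃ d : ℕ → ℕ, (∀ n, d n ∈ D n) ∧ x = ∑' n, (d n : ℝ) / Gen.P M (n + 1)} := by
  simp only [moranSet, Gen.P, Nat.cast_prod]

theorem result (M k : ℕ → ℕ) (hM : ∀ n, 2 ≤ M n) (hk : ∀ n, 1 ≤ k n ∧ k n ≤ M n) :
    (∃ D : ℕ → Finset ℕ, (∀ n, D n ⊆ Finset.range (M n) ∧ (D n).card = k n) ∧
      volume (moranSet M D) = 0 ∧ ¬ IsUniquenessSet (moranSet M D)) ↔
    (Tendsto (fun N => ∏ n ∈ Finset.range N, (k n : ℝ) / M n) atTop (𝓝 0) ∧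
      ∀ C : ℝ, ∀ᶠ n in atTop, k n < M n → C * Real.log (M n) ≤ k n) := by
  constructor
  · rintro ⟨D, hD, h0, hu⟩
    rw [moranSet_eq] at h0
    refine ⟨by simpa only [(hD _).2] using Thr.prod_tendsto hM (fun n => (hD n).1) h0,
      fun C => ?_⟩
    by_contra hc
    refine hu fun a b h => ?_
    rw [moranSet_eq] at h
    refine Thr.thin_unique hM (fun n => (hD n).1) C ((not_eventually.1 hc).mono fun n hn => ?_) h
    rw [(hD n).2]
    rw [Classical.not_imp, not_le] at hn
    exact ⟨hn.1, hn.2.le⟩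
  · rintro ⟨h0, hg⟩
    obtain ⟨D, hD, ⟨p, hp⟩, ⟨q, hq⟩, ha⟩ :=
      Thr.exists_sets hM hk (Thr.frequently_lt hM hk h0) hg
    obtain ⟨c, hc⟩ : ∃ c : ℕ → ℕ, ∀ n, k n = c n + 1 :=
      ⟨fun n => k n - 1, fun n => (Nat.sub_add_cancel (hk n).1).symm⟩
    have hc' : ∀ n, (k n : ℝ) = c n + 1 := fun n => by rw [hc n]; push_cast; rfl
    choose g g1 g2 g3 using fun n => Thr.exists_enum (D n) ((hD n).2.trans (hc n))
    have h : ∀ n j, g n j < M n := fun n j => Finset.mem_range.1 ((hD n).1 (g1 n j))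
    have hr : moranSet M D = Set.range (Thr.Y M g c) := by
      rw [moranSet_eq]
      ext x
      constructor
      · rintro ⟨d, hd, rfl⟩
        choose ω hω using fun n => g2 n (d n) (hd n)
        exact ⟨ω, tsum_congr fun n => by rw [hω]⟩
      · rintro ⟨ω, rfl⟩
        exact ⟨fun n => g n (ω n), fun n => g1 n _, rfl⟩
    refine ⟨D, hD, ?_, fun hu => ?_⟩
    · rw [hr]
      have lim := ENNReal.tendsto_ofReal h0
      rw [ENNReal.ofReal_zero] at lim
      simp only [hc'] at lim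
      exact le_antisymm (ge_of_tendsto' lim fun N => Thr.vol_le hM h N) zero_le
    · have := Gen.prob_PP c
      have hz := Thr.tendsto_coef (c := c) hM h fun ε hε => (ha ε hε).mono fun n hn t => by
        rw [Thr.norm_ph, g3 n fun d => ch (t * (d / Gen.P M (n + 1))), ← hc' n]
        refine le_trans (le_of_eq ?_) (hn (t / Gen.P M (n + 1)))
        congr 2
        exact Finset.sum_congr rfl fun d _ => by congr 1; ring
      rw [hr] at hu
      have h1 := hu
        (fun n => 2 * (∫ ω, Real.cos (2 * Real.pi * n * Thr.Y M g c ω) ∂(Gen.PP c)) -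
          if n = 0 then 1 else 0)
        (fun n => 2 * ∫ ω, Real.sin (2 * Real.pi * n * Thr.Y M g c ω) ∂(Gen.PP c)) (by
          rintro x ⟨hx, hK⟩
          obtain ⟨δ, hδ, h2⟩ := Thr.exists_del hM h (fun j => hp _ (g1 p j))
            (fun j => hq _ (g1 q j)) x hx hK
          exact tendsto_series (Thr.continuous_Y hM h).measurable hz x δ hδ h2)
      have h2 := h1.1 0
      simp at h2
      norm_num at h2

end Pool.Agent.Results.MP_c7f57c_an.Threshold
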