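import Pool.Agent.FS.UniqCrit.Main

set_option autoImplicit false

namespace Pool.Agent.Results.MP_c7f57c_an.UniquenessCriterion

open Filter Topology
open Pool.Agent.Lib.MP_c7f57c_an Pool.Agent.FS.UniqCrit

/-- A Moran set is a set of multiplicity if and only if its digit sets carry complex weights of
sum one whose nontrivial discrete Fourier coefficients tend to zero uniformly. -/
theorem result (M : ℕ → ℕ) (D : ℕ → Finset ℕ) (hM : ∀ n, 2 ≤ M n)
    (hD : ∀ n, (D n).Nonempty ∧ D n ⊆ Finset.range (M n)) :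
    (∃ a b : ℕ → ℝ,
      (∀ x ∈ Set.Icc (0 : ℝ) 1 \ {x : ℝ | ∃ d : ℕ → ℕ, (∀ n, d n ∈ D n) ∧
          x = ∑' n, (d n : ℝ) / ∏ k ∈ Finset.range (n + 1), (M k : ℝ)},
        Tendsto (fun N : ℕ => ∑ n ∈ Finset.range N,
          (a n * Real.cos (2 * Real.pi * n * x) + b n * Real.sin (2 * Real.pi * n * x)))
          atTop (𝓝 0)) ∧
      ((∃ n, a n ≠ 0) ∨ ∃ n, 1 ≤ n ∧ b n ≠ 0)) ↔
    ∀ ε : ℝ, 0 < ε → ∀ᶠ n in atTop, ∃ w : ℕ → ℂ, ∑ d ∈ D n, w d = 1 ∧
      ∀ j : ℕ, 0 < j → j < M n →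
        ‖∑ d ∈ D n, w d * Complex.exp (2 * Real.pi * Complex.I * (j * d / M n))‖ ≤ ε := by
  have e1 : ∀ n, ∏ k ∈ Finset.range (n + 1), (M k : ℝ) = Gen.P M (n + 1) := fun n => by
    simp only [Gen.P, Nat.cast_prod]
  have e3 : ∀ j d m : ℕ, Complex.exp (2 * Real.pi * Complex.I * (j * d / m)) = ch (j * d / m) :=
    fun j d m => by
      unfold ch
      congr 1
      push_cast
      ring
  simp only [e1, e3]
  constructor
  · rintro ⟨a, b, h, hne⟩
    refine flat_of_series hM (fun n => (hD n).2) (a := a) (b := b) h ?_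
    rintro ⟨h1, h2⟩
    rcases hne with ⟨n, hn⟩ | ⟨n, hn, hn'⟩
    · exact hn (h1 n)
    · exact hn' (h2 n hn)
  · intro hF
    obtain ⟨a, b, h0, h⟩ := series_of_flat hM (fun n => (hD n).2) (fun n => (hD n).1) hF
    exact ⟨a, b, h, Or.inl ⟨0, by rw [h0]; exact one_ne_zero⟩⟩

end Pool.Agent.Results.MP_c7f57c_an.UniquenessCriterion
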